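import Pool.Agent.H19.SYA.TA
import Pool.Agent.H2.ST.Basic2

/-!
# ND: another prime
-/

set_option autoImplicit false

namespace Pool.Agent.H41.SYA

open MvPolynomial Pool.Agent.H2.ST Pool.Agent.H15.TG Pool.Agent.H19.SYA

theorem nd_fac {k : Type} [Field k] (hFAC : Pool.Agent.H2.ST.T_FAC)
    (W : ℤ → Submodule k (Pol k 2)) (K : Subalgebra k (Pol k 2)) (hW : Gr W)
    (hfc : ∀ a b : Pol k 2, a * b ≠ 0 → a * b ∈ K → a ∈ K ∧ b ∈ K) (h : Pol k 2)
    (hall : ∀ (n : ℤ) (f : Pol k 2), Prime f → f ∈ K → f ∈ W n → Associated f h) :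
    ∀ a : Pol k 2, a ≠ 0 → a ∈ K → (∃ n, a ∈ W n) →
      ∃ (u : (Pol k 2)ˣ) (i : ℕ), a = u * h ^ i := by
  intro a
  induction a using UniqueFactorizationMonoid.induction_on_prime with
  | h₁ => intro h0; exact absurd rfl h0
  | h₂ x hx => intro _ _ _; exact ⟨hx.unit, 0, by simp⟩
  | h₃ a p ha hp ih =>
    rintro hne hK ⟨n, hn⟩
    obtain ⟨hpK, haK⟩ := hfc p a hne hK
    obtain ⟨b, c, hb, hc, -⟩ := hFAC k (Pol k 2) ℤ W hW n p a hn hne
    obtain ⟨u, i, hu⟩ := ih ha haK ⟨c, hc⟩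
    obtain ⟨v, hv⟩ := hall b p hp hpK hb
    refine ⟨v⁻¹ * u, i + 1, ?_⟩
    have h1 : p = h * ((v⁻¹ : (Pol k 2)ˣ) : Pol k 2) := by
      rw [← hv, mul_assoc, Units.mul_inv, mul_one]
    rw [hu, h1, Units.val_mul]
    ring

theorem nd_unit {k : Type} [Field k] (u : (Pol k 2)ˣ) : ∃ c : k, c ≠ 0 ∧ (u : Pol k 2) = C c := by
  have h1 : IsUnit (u : Pol k 2) := u.isUnit
  obtain ⟨c, hc, hc'⟩ := MvPolynomial.isUnit_iff_eq_C_of_isReduced.1 h1
  exact ⟨c, hc.ne_zero, hc'⟩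

theorem pf_ND (hFAC : Pool.Agent.H2.ST.T_FAC) : Pool.Agent.H19.SYA.T_ND := by
  intro k _ _ _ W K hW hK r h hp hhK hhr
  by_contra hcon
  push Not at hcon
  have hall : ∀ (n : ℤ) (f : Pol k 2), Prime f → f ∈ K → f ∈ W n → Associated f h := by
    intro n f hf hfK hfn
    by_cases hd : h ∣ f
    · exact (hp.associated_of_dvd hf hd).symm
    · exact hf.associated_of_dvd hp (hcon n f hf hfK hfn hd)
  obtain ⟨p, q, α, β, hpK, hqK, hc⟩ := hK.ex
  have hai := hc.ai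
  have hp0 : p ≠ 0 := by
    have := hai.ne_zero 0
    simpa using this
  have hq0 : q ≠ 0 := by
    have := hai.ne_zero 1
    simpa using this
  obtain ⟨u, i, hu⟩ := nd_fac hFAC W K hW.toGr hK.fc h hall p hp0 hpK ⟨α, hc.hp⟩
  obtain ⟨v, j, hv⟩ := nd_fac hFAC W K hW.toGr hK.fc h hall q hq0 hqK ⟨β, hc.hq⟩
  obtain ⟨c, hc0, huc⟩ := nd_unit u
  obtain ⟨d, hd0, hvd⟩ := nd_unit v
  have hCW : ∀ c : k, (C c : Pol k 2) ∈ W 0 := fun c => algebraMap_mem_gr hW.toGr c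
  have hi : i ≠ 0 := by
    rintro rfl
    rw [pow_zero, mul_one, huc] at hu
    have := wt_uniq hW.toGr hc.hp (hu ▸ hCW c) hp0
    have := hc.pa
    omega
  have hj : j ≠ 0 := by
    rintro rfl
    rw [pow_zero, mul_one, hvd] at hv
    have := wt_uniq hW.toGr hc.hq (hv ▸ hCW d) hq0
    have := hc.pb
    omega
  set F : MvPolynomial (Fin 2) k := C (d ^ i) * X 0 ^ j - C (c ^ j) * X 1 ^ i with hF
  have hF0 : aeval ![p, q] F = 0 := by
    rw [hF]
    simp only [map_sub, map_mul, map_pow, aeval_X, MvPolynomial.algHom_C,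
      Matrix.cons_val_zero, Matrix.cons_val_one, MvPolynomial.algebraMap_eq]
    rw [hu, hv, huc, hvd]
    ring
  have hFz : F = 0 := by
    have := hai
    rw [algebraicIndependent_iff] at this
    exact this F hF0
  have hco : coeff (Finsupp.single 0 j) F = d ^ i := by
    rw [hF, coeff_sub, coeff_C_mul, coeff_C_mul, coeff_X_pow, coeff_X_pow, if_pos rfl]
    rw [if_neg]
    · ring
    · intro heq
      have := DFunLike.congr_fun heq 0
      simp at this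
      omega
  rw [hFz, coeff_zero] at hco
  exact pow_ne_zero i hd0 hco.symm

end Pool.Agent.H41.SYA
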