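import Pool.Agent.H19.SYA.TA

/-!
Symplectic torus actions on affine four-space (MP_51eb24_ag): row SUB.
-/

set_option autoImplicit false

namespace Pool.Agent.H41.SYA

open MvPolynomial Pool.Agent.H2.ST Pool.Agent.H15.TG Pool.Agent.H19.SYA

theorem pf_SUB (hCHT : T_CHT) (hCHR : T_CHR) : T_SUB := by
  intro k _ _ _ W H y w K g e ω l L₀ _ _ Θ₀ v₀ wr₀ hy hcs hch₀ r a h U hpr hK hW hD hU hbr
  by_cases hUd : h ∣ U
  · exact ⟨0, 0, K.zero_mem, by simpa using hUd⟩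
  by_cases hd1 : h ∣ g 1
  · -- the chart at `g 1`
    have has : Associated h (g 1) := hpr.associated_of_dvd hch₀.pg hd1
    have hg1U : ¬ g 1 ∣ U := fun h1 => hUd (hd1.trans h1)
    obtain ⟨c, j, hc, hUj, haj⟩ := hCHR k W H (g 1) (g 0) (ω 1) (ω 0) L₀ Θ₀ v₀ wr₀ 1 hch₀ a U hU
      (has.symm.dvd.trans (hbr _ (hcs.gK 1))) (has.symm.dvd.trans (hbr _ (hcs.gK 0))) hg1U
    have hv0 : v₀ 0 ≠ 0 := hch₀.ind.ne_zero 0
    have htf : Θ₀ (g 0) = v₀ 0 := by rw [hch₀.tf, pow_one]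
    have hE : (((((j.natAbs : ℤ) + j).toNat : ℕ)) : ℤ) = (j.natAbs : ℤ) + j := by
      apply Int.toNat_of_nonneg
      omega
    refine ⟨j.natAbs, C c * g 0 ^ ((j.natAbs : ℤ) + j).toNat,
      K.mul_mem (K.algebraMap_mem _) (K.pow_mem (hcs.gK 0) _), ?_⟩
    refine hd1.trans ?_
    have h5 : Θ₀ (C c) = algebraMap k L₀ c := Θ₀.commutes _
    rw [← hch₀.ker, map_sub, map_mul, map_mul, map_pow, map_pow, hUj, htf, h5,
      ← zpow_natCast (v₀ 0) (((j.natAbs : ℤ) + j).toNat), hE, zpow_add₀ hv0, zpow_natCast]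
    ring
  -- another prime
  have hNC : NC h := by
    rintro ⟨c, hc⟩
    by_cases h0 : c = 0
    · exact hpr.ne_zero (by rw [hc, h0, C_0])
    · exact hpr.not_isUnit (by rw [hc]; exact (isUnit_iff_ne_zero.2 h0).map C)
  have hω : ∀ i, 0 < ω i := fun i => by
    have h1 := hcs.eo i
    have h2 := hcs.lp
    rcases Nat.eq_zero_or_pos (ω i) with h3 | h3
    · rw [h3, Nat.mul_zero] at h1
      omega
    · exact h3
  have hGp : Gp W h (g 0) r ((ω 0 : ℕ) : ℤ) :=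
    { pg := hpr, hg := hW, hf := hcs.gw 0, pa := hcs.ps r h hK hW hNC,
      pb := by exact_mod_cast hω 0, lg := hcs.ln h hK, lf := hcs.ln _ (hcs.gK 0),
      gf := hcs.cm h hK _ (hcs.gK 0), nd := hD }
  obtain ⟨L, iL, iA, Θ, v, wr, m, hch⟩ := hCHT k W H y w h (g 0) r (ω 0) hy hGp
  obtain ⟨c, j, hc, hUj, haj⟩ := hCHR k W H h (g 0) r (ω 0) L Θ v wr m hch a U hU
    (hbr h hK) (hbr _ (hcs.gK 0)) hUd
  obtain ⟨c0, j0, hc0, hg0, hw0⟩ := hCHR k W H h (g 0) r (ω 0) L Θ v wr m hch (ω 0) (g 0)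
    (hcs.gw 0) (by rw [hcs.cm h hK _ (hcs.gK 0)]; exact dvd_zero _)
      (by rw [hcs.cm _ (hcs.gK 0) _ (hcs.gK 0)]; exact dvd_zero _) hD
  obtain ⟨c1, j1, hc1, hg1, hw1⟩ := hCHR k W H h (g 0) r (ω 0) L Θ v wr m hch (ω 1) (g 1)
    (hcs.gw 1) (by rw [hcs.cm h hK _ (hcs.gK 1)]; exact dvd_zero _)
      (by rw [hcs.cm _ (hcs.gK 0) _ (hcs.gK 1)]; exact dvd_zero _) hd1
  obtain ⟨b, hb⟩ := hcs.one
  have hb' : b 0 * (ω 0 : ℤ) + b 1 * (ω 1 : ℤ) = 1 := by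
    have := hb
    rwa [Fin.sum_univ_two] at this
  have hwr : (wr : ℤ) = 1 := by
    have h1 : (wr : ℤ) * (b 0 * j0 + b 1 * j1) = 1 := by
      rw [← hb', hw0, hw1]; ring
    exact Int.eq_one_of_dvd_one (by positivity) ⟨_, h1.symm⟩
  have hv0 : v 0 ≠ 0 := hch.ind.ne_zero 0
  rw [hwr, mul_one] at haj hw0 hw1
  rw [← hw0] at hg0
  rw [← hw1] at hg1
  rw [← haj] at hUj
  -- exponents
  have hω0 : (1 : ℤ) ≤ (ω 0 : ℤ) := by exact_mod_cast hω 0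
  obtain ⟨s, t, hst, ht⟩ : ∃ s t : ℤ, s * (ω 0 : ℤ) + t * (ω 1 : ℤ) = a ∧ 0 ≤ t := by
    refine ⟨a * b 0 - |a * b 1| * (ω 1 : ℤ), a * b 1 + |a * b 1| * (ω 0 : ℤ), ?_, ?_⟩
    · calc _ = a * (b 0 * (ω 0 : ℤ) + b 1 * (ω 1 : ℤ)) := by ring
        _ = a := by rw [hb', mul_one]
    · have h1 : |a * b 1| ≤ |a * b 1| * (ω 0 : ℤ) := le_mul_of_one_le_right (abs_nonneg _) hω0
      have h2 := neg_abs_le (a * b 1)
      linarith
  have hE : ((((s.natAbs : ℤ) + s).toNat : ℕ) : ℤ) = (s.natAbs : ℤ) + s := by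
    apply Int.toNat_of_nonneg
    omega
  have hE1 : ((t.toNat : ℕ) : ℤ) = t := Int.toNat_of_nonneg ht
  set N := s.natAbs with hN
  set p := ((N : ℤ) + s).toNat with hp
  set q := t.toNat with hq
  refine ⟨N, C (c0 ^ N * c / (c0 ^ p * c1 ^ q)) * (g 0 ^ p * g 1 ^ q),
    K.mul_mem (K.algebraMap_mem _) (K.mul_mem (K.pow_mem (hcs.gK 0) _) (K.pow_mem (hcs.gK 1) _)),
    ?_⟩
  have h5 : Θ (C (c0 ^ N * c / (c0 ^ p * c1 ^ q))) =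
      algebraMap k L (c0 ^ N * c / (c0 ^ p * c1 ^ q)) := Θ.commutes _
  have hA : Θ (g 0 ^ p * g 1 ^ q) = algebraMap k L (c0 ^ p * c1 ^ q) *
      v 0 ^ ((N : ℤ) * (ω 0 : ℤ) + a) := by
    have h6 : (v 0 ^ ((ω 0 : ℕ) : ℤ)) ^ p = v 0 ^ ((ω 0 : ℤ) * (p : ℤ)) := by
      rw [zpow_mul, zpow_natCast (v 0 ^ ((ω 0 : ℕ) : ℤ)) p]
    have h7 : (v 0 ^ ((ω 1 : ℕ) : ℤ)) ^ q = v 0 ^ ((ω 1 : ℤ) * (q : ℤ)) := by
      rw [zpow_mul, zpow_natCast (v 0 ^ ((ω 1 : ℕ) : ℤ)) q]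
    have h8 : (N : ℤ) * (ω 0 : ℤ) + a = (ω 0 : ℤ) * (p : ℤ) + (ω 1 : ℤ) * (q : ℤ) := by
      rw [hE, hE1, ← hst]; ring
    rw [map_mul, map_pow, map_pow, hg0, hg1, mul_pow, mul_pow, h6, h7, h8, zpow_add₀ hv0, map_mul,
      map_pow, map_pow]
    ring
  have hcm : algebraMap k L (c0 ^ p * c1 ^ q) ≠ 0 := by
    rw [Ne, map_eq_zero]
    exact mul_ne_zero (pow_ne_zero _ hc0) (pow_ne_zero _ hc1)
  rw [← hch.ker, map_sub, map_mul, map_mul, map_pow, hUj, hg0, h5, hA, map_div₀, mul_pow,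
    div_mul_eq_mul_div, mul_div_assoc, mul_div_cancel_left₀ _ hcm, map_mul, map_pow,
    zpow_add₀ hv0, mul_comm (N : ℤ), zpow_mul, zpow_natCast (v 0 ^ (ω 0 : ℤ)) N]
  ring

end Pool.Agent.H41.SYA
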